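import Pool.Agent.H380.BE.Hl

/-!
# Weak type (1,1) for the maximal function over cubes
-/

set_option autoImplicit false

open MeasureTheory Set Metric
open scoped ENNReal

namespace Pool.Agent.H695.BE

open Pool.Agent.W203.BE Pool.Agent.H380.BE

theorem vol5 {n : ℕ} (x : Fin n → ℝ) {r : ℝ} (hr : 0 < r) :
    volume (closedBall x (5 * r)) = 10 ^ n * ENNReal.ofReal (r ^ n) := by
  rw [Real.volume_pi_closedBall x (by positivity), Fintype.card_fin]
  have e : (10 : ℝ≥0∞) ^ n = ENNReal.ofReal (10 ^ n) := by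
    rw [ENNReal.ofReal_pow (by norm_num)]
    norm_num
  rw [e, ← ENNReal.ofReal_mul (by positivity)]
  congr 1
  rw [← mul_pow]
  ring

/-- bounded radii -/
theorem weak_R {n : ℕ} (f : (Fin n → ℝ) → ℝ≥0∞) (l : ℝ≥0∞) (R : ℝ) (S : Set (Fin n → ℝ))
    (hS : ∀ x ∈ S, ∃ r : ℝ, 0 < r ∧ r ≤ R ∧
      l < (∫⁻ y in closedBall x r, f y) / ENNReal.ofReal (r ^ n)) :
    l * volume S ≤ 10 ^ n * ∫⁻ y, f y := by
  classical
  have hch : ∀ x : Fin n → ℝ, ∃ r : ℝ, 0 < r ∧ (x ∈ S → r ≤ R ∧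
      l * ENNReal.ofReal (r ^ n) ≤ ∫⁻ y in closedBall x r, f y) := by
    intro x
    by_cases hx : x ∈ S
    · obtain ⟨r, hr, hrR, hl⟩ := hS x hx
      refine ⟨r, hr, fun _ => ⟨hrR, ?_⟩⟩
      exact ENNReal.mul_le_of_le_div hl.le
    · exact ⟨1, one_pos, fun h => absurd h hx⟩
  choose ρ hρ hρ' using hch
  obtain ⟨u, huS, hud, huc⟩ := Vitali.exists_disjoint_subfamily_covering_enlargement_closedBall
    S (fun x : Fin n → ℝ => x) ρ R (fun x hx => (hρ' x hx).1) 5 (by norm_num)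
  have hcount : u.Countable := hud.countable_of_nonempty_interior fun x _ =>
    ⟨x, ball_subset_interior_closedBall (mem_ball_self (hρ x))⟩
  have hcov : S ⊆ ⋃ b ∈ u, closedBall b (5 * ρ b) := by
    intro x hx
    obtain ⟨b, hb, hsub⟩ := huc x hx
    exact mem_biUnion hb (hsub (mem_closedBall_self (hρ x).le))
  have h1 : volume S ≤ ∑' b : u, volume (closedBall (b : Fin n → ℝ) (5 * ρ b)) :=
    (measure_mono hcov).trans (measure_biUnion_le volume hcount _)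
  have h2 : ∀ b : u, l * volume (closedBall (b : Fin n → ℝ) (5 * ρ b))
      ≤ 10 ^ n * ∫⁻ y in closedBall (b : Fin n → ℝ) (ρ b), f y := by
    intro b
    have hb := (hρ' b (huS b.2)).2
    rw [vol5 _ (hρ b)]
    calc l * (10 ^ n * ENNReal.ofReal (ρ b ^ n))
        = 10 ^ n * (l * ENNReal.ofReal (ρ b ^ n)) := by ring
      _ ≤ 10 ^ n * ∫⁻ y in closedBall (b : Fin n → ℝ) (ρ b), f y := by gcongr
  calc l * volume S ≤ l * ∑' b : u, volume (closedBall (b : Fin n → ℝ) (5 * ρ b)) := by gcongr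
    _ = ∑' b : u, l * volume (closedBall (b : Fin n → ℝ) (5 * ρ b)) :=
        ENNReal.tsum_mul_left.symm
    _ ≤ ∑' b : u, 10 ^ n * ∫⁻ y in closedBall (b : Fin n → ℝ) (ρ b), f y :=
        ENNReal.tsum_le_tsum h2
    _ = 10 ^ n * ∑' b : u, ∫⁻ y in closedBall (b : Fin n → ℝ) (ρ b), f y :=
        ENNReal.tsum_mul_left
    _ = 10 ^ n * ∫⁻ y in ⋃ b ∈ u, closedBall b (ρ b), f y := by
        rw [lintegral_biUnion hcount (fun b _ => measurableSet_closedBall) hud]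
    _ ≤ 10 ^ n * ∫⁻ y, f y := by
        gcongr
        exact Measure.restrict_le_self

/-- **WEAK** -/
theorem t_WEAK : S_WEAK := by
  intro n f l
  obtain ⟨A, hA⟩ : ∃ A : ℕ → Set (Fin n → ℝ), A = fun R : ℕ => {x | ∃ r : ℝ, 0 < r ∧ r ≤ R ∧
      l < (∫⁻ y in closedBall x r, f y) / ENNReal.ofReal (r ^ n)} := ⟨_, rfl⟩
  have hmono : Monotone A := by
    intro R R' h x hx
    rw [hA] at hx ⊢
    obtain ⟨r, h1, h2, h3⟩ := hx
    exact ⟨r, h1, h2.trans (by exact_mod_cast h), h3⟩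
  have hU : {x | l < HM f x} = ⋃ R : ℕ, A R := by
    ext x
    rw [mem_iUnion, hA]
    simp only [mem_setOf_eq]
    unfold HM
    rw [lt_iSup_iff]
    constructor
    · rintro ⟨⟨r, hr⟩, h⟩
      exact ⟨⌈r⌉₊, r, hr, Nat.le_ceil r, h⟩
    · rintro ⟨R, r, hr, _, h⟩
      exact ⟨⟨r, hr⟩, h⟩
  rw [hU, hmono.measure_iUnion, ENNReal.mul_iSup]
  refine iSup_le fun R => weak_R f l R (A R) ?_
  intro x hx
  rw [hA] at hx
  exact hx

end Pool.Agent.H695.BE
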